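import Pool.Agent.N467.FFChordal.Proof

/-!
# First-Fit on chordal graphs: the bound `c * ω(G) * log n` is attained for every clique number
-/

namespace Pool.Agent.Results.MP_4aa424_co.FirstFitChordal

open Pool.Agent.N467.FFChordal

/-- There is an absolute constant `c > 0` such that for every `k ≥ 2` and every `n ≥ k ^ 2` there is a
chordal graph `G` with `n` vertices and clique number `k` on which First-Fit uses at least
`c * ω(G) * log n` colours for a suitable ordering. (For `k = 1` the graphs have no edges, and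
First-Fit uses one colour.) -/
theorem result :
    (∃ c : ℝ, 0 < c ∧ ∀ k : ℕ, 2 ≤ k → ∀ n : ℕ, k ^ 2 ≤ n →
      ∃ G : SimpleGraph (Fin n), IsChordal G ∧ G.cliqueNum = k ∧
        c * (G.cliqueNum : ℝ) * Real.log n ≤ (chiFF G : ℝ)) ∧
    (∀ (n : ℕ) (G : SimpleGraph (Fin n)), G.cliqueNum = 1 → chiFF G = 1) := by
  refine ⟨⟨1 / 6, by norm_num, fun k hk n hn => ?_⟩,
    fun n G hG => Pool.Agent.N467.FFChordal.one_case G hG⟩
  obtain ⟨G, h1, h2, h3⟩ := Pool.Agent.N467.FFChordal.main_ge k hk n hn
  exact ⟨G, h1, h2, by rw [h2]; exact h3⟩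

end Pool.Agent.Results.MP_4aa424_co.FirstFitChordal
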